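import Pool.Agent.K3h44.RQ.Stm

/-! Project RQ (helper44), brick EMB. -/

set_option autoImplicit false

namespace Pool.Agent.K3h67.RQ

open Pool.Agent.K3h44.RQ NumberField

lemma no_sqrt {d : ℕ} (h1 : 1 < d) (hd : Squarefree d) (b : ℚ) : b ^ 2 ≠ (d : ℚ) := by
  intro h
  have h2 : IsSquare (d : ℚ) := ⟨b, by rw [← h, sq]⟩
  rw [Rat.isSquare_natCast_iff] at h2
  obtain ⟨k, hk⟩ := h2
  have h3 : IsUnit k := hd k ⟨1, by rw [hk, mul_one]⟩
  rw [Nat.isUnit_iff] at h3
  rw [h3] at hk
  omega

lemma indep {K : Type} [Field K] [NumberField K] {d : ℕ} (h1 : 1 < d) (hd : Squarefree d) {s : K}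
    (hs : s ^ 2 = (d : K)) {a b : ℚ} (h : (a : K) + b * s = 0) : a = 0 ∧ b = 0 := by
  have hb : b = 0 := by
    by_contra hb
    have hb' : (b : K) ≠ 0 := by exact_mod_cast hb
    have h2 : s = ((-(a / b) : ℚ) : K) := by
      push_cast
      field_simp
      linear_combination h
    rw [h2] at hs
    refine no_sqrt h1 hd (-(a / b)) ?_
    exact_mod_cast hs
  refine ⟨?_, hb⟩
  rw [hb, Rat.cast_zero, zero_mul, add_zero] at h
  exact_mod_cast h

theorem t_EMB : S_EMB := by
  intro K _ _ hK d h1 hd s hs τ hN hT F _ _ r hr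
  have hli : LinearIndependent ℚ ![(1 : K), s] := by
    rw [LinearIndependent.pair_iff]
    intro a b h
    rw [Algebra.smul_def, Algebra.smul_def, mul_one, eq_ratCast, eq_ratCast] at h
    exact indep h1 hd hs h
  let B : Module.Basis (Fin 2) ℚ K := basisOfLinearIndependentOfCardEqFinrank hli (by simp [hK])
  have hB : ∀ i, B i = ![(1 : K), s] i := fun i => by
    simp [B]
  let pb : PowerBasis ℚ K :=
    { gen := s
      dim := 2
      basis := B
      basis_eq_pow := by
        intro i
        rw [hB]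
        fin_cases i <;> simp }
  have hmin : minpoly ℚ s = Polynomial.X ^ 2 - Polynomial.C (d : ℚ) := by
    have h2 : (minpoly ℚ s).natDegree = 2 := pb.natDegree_minpoly
    have h3 : minpoly ℚ s ∣ Polynomial.X ^ 2 - Polynomial.C (d : ℚ) := by
      refine minpoly.dvd ℚ s ?_
      simp [hs]
    refine (Polynomial.eq_of_monic_of_dvd_of_natDegree_le (minpoly.monic pb.isIntegral_gen)
      (Polynomial.monic_X_pow_sub_C _ two_ne_zero) h3 ?_).symm
    change _ ≤ (minpoly ℚ s).natDegree
    rw [h2, Polynomial.natDegree_X_pow_sub_C]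
  let j : K →ₐ[ℚ] F := pb.lift r (by
    change Polynomial.aeval r (minpoly ℚ s) = 0
    rw [hmin]
    simp [hr])
  have hj : j s = r := pb.lift_gen r _
  have hrep : ∀ x : K, ∃ a b : ℚ, x = a + b * s := by
    intro x
    refine ⟨B.repr x 0, B.repr x 1, ?_⟩
    have h2 := B.sum_repr x
    rw [Fin.sum_univ_two, hB, hB] at h2
    simp only [Matrix.cons_val_zero, Matrix.cons_val_one] at h2
    rw [Algebra.smul_def, Algebra.smul_def, mul_one, eq_ratCast, eq_ratCast] at h2
    exact h2.symm
  have hjr : ∀ a b : ℚ, j ((a : K) + b * s) = a + b * r := by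
    intro a b
    rw [map_add, map_mul, map_ratCast, map_ratCast, hj]
  refine ⟨j.toRingHom, fun φ => ⟨fun hφ x => ?_, fun hφ x => ?_⟩⟩
  · obtain ⟨a, b, hx⟩ := hrep (x : K)
    change φ (j (x : K)) = j (x : K)
    rw [hx, hjr, map_add, map_mul, map_ratCast, map_ratCast, hφ]
  · obtain ⟨a, b, hx⟩ := hrep (x : K)
    change φ (j (x : K)) = j (τ x : K)
    have hT' : ((Algebra.trace ℤ (𝓞 K) x : ℤ) : K) = (x : K) + (τ x : K) := by
      have := congrArg (algebraMap (𝓞 K) K) (hT x)
      simpa using this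
    have hN' : ((Algebra.norm ℤ x : ℤ) : K) = (x : K) * (τ x : K) := by
      have := congrArg (algebraMap (𝓞 K) K) (hN x)
      simpa using this
    set T : ℤ := Algebra.trace ℤ (𝓞 K) x with hTdef
    set N : ℤ := Algebra.norm ℤ x with hNdef
    have hτ : (τ x : K) = (T : K) - (a + b * s) := by
      rw [hT', hx]
      ring
    have key : (((a * T - a ^ 2 - b ^ 2 * d - N : ℚ)) : K) + ((b * (T - 2 * a) : ℚ) : K) * s = 0 := by
      rw [hτ, hx] at hN'
      push_cast
      linear_combination (-1 : K) * hN' + (b : K) ^ 2 * hs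
    have hb := (indep h1 hd hs key).2
    rw [hx, hjr, map_add, map_mul, map_ratCast, map_ratCast, hφ]
    rcases mul_eq_zero.1 hb with hb | hb
    · subst hb
      have hint : IsIntegral ℤ (a : ℚ) := by
        have h3 : IsIntegral ℤ (x : K) := x.2
        have h4 : (x : K) = algebraMap ℚ K a := by rw [hx]; simp
        rw [h4] at h3
        exact (isIntegral_algebraMap_iff (algebraMap ℚ K).injective).1 h3
      obtain ⟨n, hn⟩ := IsIntegrallyClosed.isIntegral_iff.1 hint
      have hn' : (n : ℚ) = a := by simpa using hn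
      have hxn : x = (n : 𝓞 K) := by
        apply RingOfIntegers.ext
        rw [hx, ← hn']
        simp
      rw [hxn, map_intCast, ← hn']
      simp
    · have h3 : (T : ℚ) = 2 * a := sub_eq_zero.1 hb
      have h4 : (τ x : K) = (a : K) + ((-b : ℚ) : K) * s := by
        rw [hτ]
        have h5 : (T : K) = 2 * (a : K) := by exact_mod_cast h3
        rw [h5]
        push_cast
        ring
      rw [h4, hjr]
      push_cast
      ring

end Pool.Agent.K3h67.RQ
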