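import Pool.Agent.K3h44.RQ.Stm

/-! Project RQ (helper44), brick SQR. -/

set_option autoImplicit false

namespace Pool.Agent.K3h67.RQ

open Polynomial Pool.Agent.Y546.WQ Pool.Agent.K3h44.RQ

theorem t_SQR : S_SQR := by
  intro p hp hp2 u s hu hs h a ha ha2
  obtain ⟨i, r, hr, hdvd⟩ := h a ha ha2
  set G := thPa p a (1 + C s * X) with hG
  set n := (hf p a).card with hn
  have e1 : thPa p a (C u * (1 + C s * X) ^ 2) = C (u ^ n) * G ^ 2 := by
    rw [hG]
    unfold thPa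
    simp only [mul_comp, C_comp, pow_comp]
    rw [Finset.prod_mul_distrib, Finset.prod_const, Finset.prod_pow, C_pow]
  have hodd : Odd p := hp.out.odd_of_ne_two hp2
  obtain ⟨i', hi'⟩ : ∃ i', 2 * i' = i ∨ 2 * i' = i + p := by
    rcases Nat.even_or_odd i with ⟨k, hk⟩ | hi
    · exact ⟨k, Or.inl (by omega)⟩
    · obtain ⟨k, hk⟩ := hi.add_odd hodd
      exact ⟨k, Or.inr (by omega)⟩
  have e2 : (X - 1 : (ZMod p)[X]) ^ (p - 1) ∣ X ^ i - X ^ (2 * i') := by
    rcases hi' with h1 | h1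
    · rw [h1, sub_self]
      exact dvd_zero _
    · rw [h1]
      have : (X : (ZMod p)[X]) ^ i - X ^ (i + p) = - (X ^ i) * (X - 1) ^ p := by
        rw [sub_pow_char, one_pow, pow_add]
        ring
      rw [this]
      exact Dvd.dvd.mul_left (pow_dvd_pow _ (Nat.sub_le _ _)) _
  have e3 : (X - 1 : (ZMod p)[X]) ^ (p - 1) ∣ C (u ^ n) * G ^ 2 - C r * X ^ (2 * i') := by
    have h1 := dvd_add hdvd (Dvd.dvd.mul_left e2 (C r))
    rw [e1] at h1
    have h2 : C (u ^ n) * G ^ 2 - C r * X ^ i + C r * (X ^ i - X ^ (2 * i')) =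
        C (u ^ n) * G ^ 2 - C r * X ^ (2 * i') := by ring
    rwa [h2] at h1
  have hG1 : G.eval 1 ≠ 0 := by
    rw [hG]
    unfold thPa
    rw [eval_prod]
    refine Finset.prod_ne_zero_iff.2 fun t _ => ?_
    rw [eval_comp]
    simp only [eval_add, eval_one, eval_mul, eval_C, eval_X, eval_pow, one_pow, mul_one]
    exact hs
  set r' := G.eval 1 with hr'
  have hp1 : p - 1 ≠ 0 := by
    have := hp.out.two_le
    omega
  have hX1 : (X - 1 : (ZMod p)[X]) = X - C 1 := by rw [C_1]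
  have e4 : u ^ n * r' ^ 2 = r := by
    have h1 : (X - 1 : (ZMod p)[X]) ∣ C (u ^ n) * G ^ 2 - C r * X ^ (2 * i') :=
      (dvd_pow_self _ hp1).trans e3
    rw [hX1, dvd_iff_isRoot, IsRoot.def] at h1
    simp only [eval_sub, eval_mul, eval_C, eval_pow, eval_X, one_pow, mul_one, ← hr'] at h1
    exact sub_eq_zero.1 h1
  refine ⟨i', r', hG1, ?_⟩
  have e5 : C (u ^ n) * G ^ 2 - C r * X ^ (2 * i') =
      (C (u ^ n) * (G + C r' * X ^ i')) * (G - C r' * X ^ i') := by
    have h1 : (C r : (ZMod p)[X]) = C (u ^ n) * C r' ^ 2 := by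
      rw [← e4, map_mul, map_pow C r' 2]
    rw [h1, mul_comm 2 i', pow_mul]
    ring
  rw [e5] at e3
  refine IsCoprime.dvd_of_dvd_mul_left ?_ e3
  refine IsCoprime.pow_left ?_
  rw [hX1, (irreducible_X_sub_C (1 : ZMod p)).coprime_iff_not_dvd, dvd_iff_isRoot, IsRoot.def]
  simp only [eval_mul, eval_C, eval_add, eval_pow, eval_X, one_pow, mul_one, ← hr']
  have h2 : (2 : ZMod p) ≠ 0 := by
    intro h3
    have h4 : ((2 : ℕ) : ZMod p) = 0 := by exact_mod_cast h3
    rw [ZMod.natCast_eq_zero_iff] at h4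
    exact hp2 ((Nat.prime_dvd_prime_iff_eq hp.out Nat.prime_two).1 h4)
  rw [← two_mul]
  exact mul_ne_zero (pow_ne_zero _ hu) (mul_ne_zero h2 hG1)

end Pool.Agent.K3h67.RQ
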